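import Pool.Agent.Helper784CF.All

set_option autoImplicit false

/-! A continuum of pairwise incomparable free Cantor flows of a countable group which has an
infinite finitely generated subgroup in which infinitely many primes are not orders of elements. -/

namespace Pool.Agent.Results.MP_459809_an.WidthOfFree

open scoped Classical

/-- an action of `G` on the Cantor space `ℕ → Bool` by homeomorphisms -/
abbrev Flow (G : Type) [Group G] : Type := G →* ((ℕ → Bool) ≃ₜ (ℕ → Bool))

/-- the flow is free -/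
def IsFree {G : Type} [Group G] (a : Flow G) : Prop := ∀ g : G, g ≠ 1 → ∀ x, a g x ≠ x

/-- closed covers of the Cantor space of size `k` -/
def IsClosedCover {k : ℕ} (C : Fin k → Set (ℕ → Bool)) : Prop :=
  (∀ i, IsClosed (C i)) ∧ ⋃ i, C i = Set.univ

/-- `p_W(C, a)`: the sets `σ ⊆ [k] × W` such that the sets `γ • C_i`, `(i, γ) ∈ σ`, have a common
point -/
def pattern {G : Type} [Group G] (a : Flow G) (W : Finset G) {k : ℕ}
    (C : Fin k → Set (ℕ → Bool)) : Set (Set (Fin k × W)) :=
  {σ | (⋂ s ∈ σ, a (s.2 : G) '' C s.1).Nonempty}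

/-- `P_{W,k}(a)` -/
def Patterns {G : Type} [Group G] (a : Flow G) (W : Finset G) (k : ℕ) :
    Set (Set (Set (Fin k × W))) :=
  {P | ∃ C : Fin k → Set (ℕ → Bool), IsClosedCover C ∧ P = pattern a W C}

/-- `a` weakly contains `b` -/
def WeaklyContained {G : Type} [Group G] (b a : Flow G) : Prop :=
  ∀ (W : Finset G) (k : ℕ), Patterns b W k ⊆ Patterns a W k

open Pool.Agent.Helper784CF

theorem transfer {G : Type} [Group G] (E : Finset G) (p : ℕ) [NeZero p] (b a : Flow G)
    (h : WeaklyContained b a) (hb : PA E p b) : PA E p a := by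
  obtain ⟨f, hf, hs⟩ := hb
  let n := Fintype.card (E → ZMod p)
  let e : (E → ZMod p) ≃ Fin n := Fintype.equivFin _
  let W : Finset G := insert 1 E
  let C : Fin n → Set (ℕ → Bool) := fun i => {x | e (f x) = i}
  have he1 : Continuous e := continuous_of_discreteTopology
  have he2 : Continuous e.symm := continuous_of_discreteTopology
  have hC : IsClosedCover C := by
    refine ⟨fun i => isClosed_eq (he1.comp hf) continuous_const, ?_⟩
    ext x
    simp [C]
  obtain ⟨C', hC', hp⟩ := h W n ⟨C, hC, rfl⟩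
  have w1 : (1 : G) ∈ W := Finset.mem_insert_self _ _
  have wE : ∀ g : E, g.1 ∈ W := fun g => Finset.mem_insert_of_mem g.2
  -- the sets `C' i` are pairwise disjoint
  have hdis : ∀ i j, ∀ x, x ∈ C' i → x ∈ C' j → i = j := by
    intro i j x hi hj
    have hσ : ({(i, ⟨1, w1⟩), (j, ⟨1, w1⟩)} : Set (Fin n × W)) ∈ pattern a W C' := by
      refine ⟨x, ?_⟩
      simp only [Set.mem_insert_iff, Set.mem_singleton_iff, Set.mem_iInter]
      rintro s (rfl | rfl)
      · exact ⟨x, hi, by simp⟩
      · exact ⟨x, hj, by simp⟩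
    rw [← hp] at hσ
    obtain ⟨y, hy⟩ := hσ
    simp only [Set.mem_insert_iff, Set.mem_singleton_iff, Set.mem_iInter] at hy
    obtain ⟨y1, hy1, hy1'⟩ := hy _ (Or.inl rfl)
    obtain ⟨y2, hy2, hy2'⟩ := hy _ (Or.inr rfl)
    simp only [map_one] at hy1' hy2'
    change y1 = y at hy1'
    change y2 = y at hy2'
    subst hy1'
    subst hy2'
    exact hy1.symm.trans hy2
  have hex : ∀ x, ∃ i, x ∈ C' i := by
    intro x
    have : x ∈ ⋃ i, C' i := by rw [hC'.2]; trivial
    simpa using this
  choose idx hidx using hex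
  have hpre : ∀ i, idx ⁻¹' {i} = C' i := by
    intro i
    ext x
    constructor
    · intro hx
      have : idx x = i := hx
      rw [← this]; exact hidx x
    · intro hx
      exact hdis _ _ x (hidx x) hx
  have hcont : Continuous idx := by
    rw [continuous_discrete_rng]
    intro i
    have h1 : (idx ⁻¹' {i})ᶜ = ⋃ j ∈ {j | j ≠ i}, C' j := by
      ext x
      simp only [Set.mem_compl_iff, Set.mem_preimage, Set.mem_singleton_iff, Set.mem_setOf_eq,
        Set.mem_iUnion, exists_prop]
      constructor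
      · intro hx
        exact ⟨idx x, hx, hidx x⟩
      · rintro ⟨j, hj, hxj⟩ hx
        exact hj (hdis _ _ x hxj (hx ▸ hidx x))
    rw [← isClosed_compl_iff, h1]
    exact Set.Finite.isClosed_biUnion (Set.toFinite _) fun j _ => hC'.1 j
  refine ⟨fun x => e.symm (idx x), he2.comp hcont, fun x => ?_⟩
  -- a common point
  let σ : Set (Fin n × W) := insert (idx x, ⟨1, w1⟩)
    (Set.range fun g : E => (idx (a (g.1)⁻¹ x), ⟨g.1, wE g⟩))
  have hσ : σ ∈ pattern a W C' := by
    refine ⟨x, ?_⟩
    simp only [Set.mem_iInter]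
    rintro s (rfl | ⟨g, rfl⟩)
    · exact ⟨x, hidx x, by simp⟩
    · refine ⟨a (g.1)⁻¹ x, hidx _, ?_⟩
      change (a g.1 * a (g.1)⁻¹) x = x
      rw [← map_mul]
      simp
  rw [← hp] at hσ
  obtain ⟨y, hy⟩ := hσ
  simp only [Set.mem_iInter] at hy
  have h2 : f y = e.symm (idx x) := by
    obtain ⟨z, hz, hz'⟩ := hy _ (Or.inl rfl)
    simp only [map_one] at hz'
    change z = y at hz'
    subst hz'
    rw [← (show e (f z) = idx x from hz), Equiv.symm_apply_apply]
  have h3 : ∀ g : E, f (b (g.1)⁻¹ y) = e.symm (idx (a (g.1)⁻¹ x)) := by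
    intro g
    obtain ⟨z, hz, hz'⟩ := hy _ (Or.inr ⟨g, rfl⟩)
    have hz2 : b (g.1)⁻¹ y = z := by
      rw [← hz']
      change (b (g.1)⁻¹ * b g.1) z = z
      rw [← map_mul]
      simp
    rw [hz2, ← (show e (f z) = idx (a (g.1)⁻¹ x) from hz), Equiv.symm_apply_apply]
  have := hs y
  simp only [h2, h3] at this
  exact this

theorem result (G : Type) [Group G] [Countable G] (D : Subgroup G) (hD : D.FG)
    (hinf : Infinite D) (hq : {q : ℕ | q.Prime ∧ ∀ d ∈ D, orderOf d ≠ q}.Infinite) :
    ∃ a : ℝ → Flow G, (∀ r, IsFree (a r)) ∧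
      ∀ r s, r ≠ s → ¬ WeaklyContained (a r) (a s) := by
  obtain ⟨E, rfl⟩ := hD
  obtain ⟨a, A, h1, -, h3, h4⟩ := mainAll (G := G) E (Set.infinite_coe_iff.1 hinf) hq
  refine ⟨a, h1, fun r s hrs hw => hrs (h4 r s fun p hp => ?_)⟩
  have : NeZero p.1 := ⟨p.2.ne_zero⟩
  exact transfer _ p.1 (a r) (a s) hw (h3 r p hp)

end Pool.Agent.Results.MP_459809_an.WidthOfFree
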